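import Mathlib
import Pool.Agent.Helper948.Ent.A1

set_option autoImplicit false

/-!
# Additive coincidences among short sums over a set with a ratio property
-/

namespace Pool.Agent.Q163.SS

open Finset

/-- the most popular value of a function -/
lemma popular {α β : Type*} [DecidableEq β] (A : Finset α) (hA : A.Nonempty) (f : α → β)
    (T : Finset β) (h : ∀ a ∈ A, f a ∈ T) :
    ∃ b ∈ T, (A.filter fun a => f a = b).Nonempty ∧
      A.card ≤ T.card * (A.filter fun a => f a = b).card := by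
  classical
  have hT : T.Nonempty := ⟨_, h _ hA.choose_spec⟩
  obtain ⟨b, hb, hmax⟩ := Finset.exists_max_image T
    (fun x => (A.filter (fun z => f z = x)).card) hT
  have h1 : A.card ≤ T.card * (A.filter fun a => f a = b).card := by
    rw [Finset.card_eq_sum_card_fiberwise (f := f) (t := T) (fun z hz => h z hz)]
    refine (Finset.sum_le_card_nsmul _ _ _ fun x hx => hmax x hx).trans ?_
    rw [smul_eq_mul]
  refine ⟨b, hb, ?_, h1⟩
  rw [← Finset.card_pos]
  have := Finset.card_pos.2 hA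
  by_contra hh
  have h2 : (A.filter fun a => f a = b).card = 0 := by omega
  rw [h2, mul_zero] at h1
  omega

/-- a function which factors through another one has fewer values -/
lemma card_image_le_of_factor {α β γ : Type*} [DecidableEq β] [DecidableEq γ] (A : Finset α)
    (f : α → β) (g : α → γ) (h : ∀ x ∈ A, ∀ y ∈ A, g x = g y → f x = f y) :
    (A.image f).card ≤ (A.image g).card := by
  classical
  rcases A.eq_empty_or_nonempty with rfl | hA
  · simp
  have : Nonempty α := ⟨hA.choose⟩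
  let s : γ → α := fun c => if hc : ∃ x ∈ A, g x = c then hc.choose else hA.choose
  have hs : ∀ x ∈ A, s (g x) ∈ A ∧ g (s (g x)) = g x := by
    intro x hx
    have hc : ∃ y ∈ A, g y = g x := ⟨x, hx, rfl⟩
    simp only [s, dif_pos hc]
    exact hc.choose_spec
  have h1 : A.image f ⊆ (A.image g).image (fun c => f (s c)) := by
    intro y hy
    obtain ⟨x, hx, rfl⟩ := Finset.mem_image.1 hy
    refine Finset.mem_image.2 ⟨g x, Finset.mem_image_of_mem _ hx, ?_⟩
    exact h _ (hs x hx).1 _ hx (hs x hx).2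
  exact (Finset.card_le_card h1).trans Finset.card_image_le

section energy

variable {E κ : Type} [Fintype E] [DecidableEq E] [Fintype κ] [DecidableEq κ]

/-- number of patterns of partners -/
def mc (E κ : Type) [Fintype E] [Fintype κ] (f : ℕ) : ℕ :=
  Fintype.card (E × κ) ^ Fintype.card (E × κ) * (f + 1) ^ Fintype.card (E × κ)

theorem energy (U : Set ℚ) (h0 : (0 : ℚ) ∉ U) (W F : Finset ℚ) (hE : 2 ≤ Fintype.card E)
    (hrat : ∀ (A : Finset (E × κ)) (c u : E × κ → ℚ),
      (∀ j ∈ A, c j ≠ 0 ∧ (c j ∈ W ∨ - c j ∈ W)) → (∀ j ∈ A, u j ∈ U) →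
      ∑ j ∈ A, c j * u j = 0 → ∀ j ∈ A, ∃ j' ∈ A, j' ≠ j ∧ u j / u j' ∈ F)
    (A : E → Finset ℚ) (s : E → ℚ) (hs : ∀ e, s e = 1 ∨ s e = -1)
    (B : E → Finset κ) (w : E → κ → ℚ) (lam : E → ℚ → κ → ℚ)
    (hw : ∀ e, ∀ b ∈ B e, w e b ∈ W ∧ w e b ≠ 0)
    (hlam : ∀ e, ∀ z ∈ A e, ∀ b ∈ B e, lam e z b ∈ U)
    (hlam0 : ∀ e, ∀ z ∈ A e, ∀ b, b ∉ B e → lam e z b = 0)
    (hsep : ∀ e, ∀ z ∈ A e, ∀ b ∈ B e, ∀ b' ∈ B e, b ≠ b' → lam e z b / lam e z b' ∉ F)
    (hz : ∀ e, ∀ z ∈ A e, z = ∑ b ∈ B e, w e b * lam e z b) :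
    ((Fintype.piFinset A).filter fun z => ∑ e, s e * z e = 0).card ^ 2 ≤
      mc E κ F.card ^ 2 * ∏ e, (A e).card := by
  classical
  set Sol := (Fintype.piFinset A).filter fun z => ∑ e, s e * z e = 0 with hSol
  rcases Sol.eq_empty_or_nonempty with he | hne
  · rw [he, Finset.card_empty]
    exact Nat.zero_le _
  let X : (E → ℚ) → (E × κ → ℚ) := fun z t => lam t.1 (z t.1) t.2
  have hSA : ∀ z ∈ Sol, ∀ e, z e ∈ A e := by
    intro z hz' e
    exact Fintype.mem_piFinset.1 (Finset.mem_filter.1 hz').1 e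
  -- partners
  have hpart : ∀ z : E → ℚ, ∃ q : (E × κ → E × κ) × (E × κ → ℚ), z ∈ Sol →
      (∀ t, q.2 t ∈ insert 0 F) ∧ ∀ t : E × κ, t.2 ∈ B t.1 →
        (q.1 t).1 ≠ t.1 ∧ (q.1 t).2 ∈ B (q.1 t).1 ∧ X z t = q.2 t * X z (q.1 t) := by
    intro z
    by_cases hzS : z ∈ Sol
    swap
    · exact ⟨(id, fun _ => 0), fun h => absurd h hzS⟩
    have hzA := hSA z hzS
    have hsum : ∑ e, s e * z e = 0 := (Finset.mem_filter.1 hzS).2
    let I : Finset (E × κ) := Finset.univ.filter fun t => t.2 ∈ B t.1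
    have hI : ∑ t ∈ I, (s t.1 * w t.1 t.2) * X z t = 0 := by
      rw [← hsum, Finset.sum_filter, Fintype.sum_prod_type]
      refine Finset.sum_congr rfl fun e _ => ?_
      rw [← Finset.sum_filter, hz e (z e) (hzA e), Finset.mul_sum]
      have : (Finset.univ.filter fun b : κ => b ∈ B e) = B e := by ext b; simp
      rw [this]
      refine Finset.sum_congr rfl fun b _ => ?_
      simp only [X]
      ring
    have hU : ∀ t ∈ I, X z t ∈ U := fun t ht =>
      hlam t.1 (z t.1) (hzA t.1) t.2 (Finset.mem_filter.1 ht).2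
    have hc : ∀ t ∈ I, s t.1 * w t.1 t.2 ≠ 0 ∧
        (s t.1 * w t.1 t.2 ∈ W ∨ - (s t.1 * w t.1 t.2) ∈ W) := by
      intro t ht
      obtain ⟨h1, h2⟩ := hw t.1 t.2 (Finset.mem_filter.1 ht).2
      rcases hs t.1 with h | h
      · rw [h, one_mul]
        exact ⟨h2, Or.inl h1⟩
      · rw [h, neg_one_mul, neg_neg]
        exact ⟨neg_ne_zero.2 h2, Or.inr h1⟩
    have hall := hrat I _ _ hc hU hI
    have hex : ∀ t : E × κ, ∃ t' : E × κ, t.2 ∈ B t.1 →
        t'.1 ≠ t.1 ∧ t'.2 ∈ B t'.1 ∧ X z t / X z t' ∈ F := by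
      intro t
      by_cases ht : t.2 ∈ B t.1
      · have htI : t ∈ I := Finset.mem_filter.2 ⟨Finset.mem_univ _, ht⟩
        obtain ⟨t', h1, h2, h3⟩ := hall t htI
        have ht' := (Finset.mem_filter.1 h1).2
        refine ⟨t', fun _ => ⟨fun hh => ?_, ht', h3⟩⟩
        obtain ⟨e, b⟩ := t
        obtain ⟨e', b'⟩ := t'
        simp only at hh ht ht'
        subst hh
        have hbb : b ≠ b' := fun h => h2 (by rw [h])
        exact hsep e' (z e') (hzA e') b ht b' ht' hbb h3
      · exact ⟨t, fun h => absurd h ht⟩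
    choose π hπ using hex
    refine ⟨(π, fun t => if t.2 ∈ B t.1 then X z t / X z (π t) else 0), fun _ => ⟨fun t => ?_,
      fun t ht => ⟨(hπ t ht).1, (hπ t ht).2.1, ?_⟩⟩⟩
    · by_cases ht : t.2 ∈ B t.1
      · simp only [if_pos ht]
        exact Finset.mem_insert_of_mem (hπ t ht).2.2
      · simp only [if_neg ht]
        exact Finset.mem_insert_self _ _
    · simp only [if_pos ht]
      have h1 : X z (π t) ≠ 0 := fun h => h0 (h ▸ hU (π t)
        (Finset.mem_filter.2 ⟨Finset.mem_univ _, (hπ t ht).2.1⟩))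
      rw [div_mul_cancel₀ _ h1]
  choose q hq using hpart
  let T : Finset ((E × κ → E × κ) × (E × κ → ℚ)) :=
    Finset.univ ×ˢ Fintype.piFinset fun _ => insert 0 F
  have hTc : T.card ≤ mc E κ F.card := by
    simp only [T]
    rw [Finset.card_product, Fintype.card_piFinset, Finset.prod_const, Finset.card_univ,
      Finset.card_univ, Fintype.card_fun, mc]
    exact Nat.mul_le_mul_left _ (Nat.pow_le_pow_left (Finset.card_insert_le _ _) _)
  obtain ⟨⟨π, ρ⟩, _, hne', hcard⟩ := popular Sol hne q T (fun z hz' =>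
    Finset.mem_product.2 ⟨Finset.mem_univ _, Fintype.mem_piFinset.2 (hq z hz').1⟩)
  set Sol' := Sol.filter (fun z => q z = (π, ρ)) with hSol'
  have hprop : ∀ z ∈ Sol', z ∈ Sol ∧ ∀ t : E × κ, t.2 ∈ B t.1 →
        (π t).1 ≠ t.1 ∧ (π t).2 ∈ B (π t).1 ∧ X z t = ρ t * X z (π t) := by
    intro z hz'
    rw [hSol', Finset.mem_filter] at hz'
    have h1 := (hq z hz'.1).2
    rw [hz'.2] at h1
    exact ⟨hz'.1, h1⟩
  have hinj : Set.InjOn X (Sol' : Set (E → ℚ)) := by
    intro z hz1 z' hz2 hzz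
    funext e
    rw [hz e (z e) (hSA z (hprop z hz1).1 e), hz e (z' e) (hSA z' (hprop z' hz2).1 e)]
    refine Finset.sum_congr rfl fun b _ => ?_
    have := congrFun hzz (e, b)
    simp only [X] at this
    rw [this]
  let Fam := Sol'.image X
  have hFam : Fam.card = Sol'.card := Finset.card_image_of_injOn hinj
  let R : E × κ → E × κ → Prop := fun a b => a.2 ∈ B a.1 ∧ π a = b
  let S : E → Finset (E × κ) := fun e => Finset.univ.filter fun t =>
    t.2 ∉ B t.1 ∨ ∃ t' : E × κ, t'.1 = e ∧ Relation.EqvGen R t t'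
  obtain ⟨z₁, hz₁⟩ := hne'
  have hsh := Pool.Agent.Helper948.Ent.A1.shearer Fam (Finset.Nonempty.image ⟨z₁, hz₁⟩ _) S 2 (by
    intro t
    by_cases ht : t.2 ∈ B t.1
    · have h1 := ((hprop z₁ hz₁).2 t ht).1
      have h2 : 1 < (Finset.univ.filter (fun j => t ∈ S j)).card := by
        rw [Finset.one_lt_card]
        refine ⟨(π t).1, ?_, t.1, ?_, h1⟩
        · simp only [S, Finset.mem_filter, Finset.mem_univ, true_and]
          exact Or.inr ⟨π t, rfl, Relation.EqvGen.rel _ _ ⟨ht, rfl⟩⟩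
        · simp only [S, Finset.mem_filter, Finset.mem_univ, true_and]
          exact Or.inr ⟨t, rfl, Relation.EqvGen.refl _⟩
      refine le_trans (Nat.succ_le_of_lt h2) (le_of_eq ?_)
      congr 1
      ext j
      simp only [Finset.mem_filter]
    · have h3 : ∀ j, t ∈ S j := by
        intro e
        simp only [S, Finset.mem_filter, Finset.mem_univ, true_and]
        exact Or.inl ht
      refine le_trans hE (le_of_eq ?_)
      rw [← Finset.card_univ]
      congr 1
      ext j
      simp only [Finset.mem_filter, Finset.mem_univ, true_and, h3])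
  have hfib : ∀ e, (Fam.image (fun x => fun t : {t // t ∈ S e} => x t.1)).card ≤ (A e).card := by
    intro e
    simp only [Fam]
    rw [Finset.image_image]
    refine (card_image_le_of_factor Sol' _ (fun z => z e) ?_).trans (Finset.card_le_card ?_)
    · intro z hz1 z' hz2 hzz
      obtain ⟨hz1S, hz1p⟩ := hprop z hz1
      obtain ⟨hz2S, hz2p⟩ := hprop z' hz2
      have hgen : ∀ t t' : E × κ, Relation.EqvGen R t t' →
          (X z t = X z' t ↔ X z t' = X z' t') := by
        intro t t' h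
        induction h with
        | rel a b hab =>
          obtain ⟨ha, rfl⟩ := hab
          obtain ⟨_, h2, h3⟩ := hz1p a ha
          obtain ⟨_, h5, h6⟩ := hz2p a ha
          have h7 : X z a ≠ 0 := fun h => h0 (h ▸ hlam a.1 (z a.1) (hSA z hz1S _) a.2 ha)
          have h8 : ρ a ≠ 0 := by
            intro h
            rw [h, zero_mul] at h3
            exact h7 h3
          rw [h3, h6]
          exact mul_right_inj' h8
        | refl a => exact Iff.rfl
        | symm a b _ ih => exact ih.symm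
        | trans a b c _ _ ih1 ih2 => exact ih1.trans ih2
      funext t
      have ht := t.2
      simp only [S, Finset.mem_filter, Finset.mem_univ, true_and] at ht
      simp only [Function.comp]
      rcases ht with ht | ⟨t', h1, h2⟩
      · simp only [X]
        rw [hlam0 _ _ (hSA z hz1S _) _ ht, hlam0 _ _ (hSA z' hz2S _) _ ht]
      · rw [hgen _ _ h2]
        simp only [X]
        rw [h1, hzz]
    · intro y hy
      obtain ⟨z, hz', rfl⟩ := Finset.mem_image.1 hy
      exact hSA z (hprop z hz').1 e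
  have h1 : Sol'.card ^ 2 ≤ ∏ e, (A e).card := by
    rw [← hFam]
    refine hsh.trans (le_trans (le_of_eq ?_) (Finset.prod_le_prod' fun e _ => hfib e))
    refine Finset.prod_congr rfl fun e _ => ?_
    congr 1
    ext x
    simp only [Finset.mem_image]
  calc Sol.card ^ 2 ≤ (T.card * Sol'.card) ^ 2 := Nat.pow_le_pow_left hcard 2
    _ = T.card ^ 2 * Sol'.card ^ 2 := mul_pow _ _ _
    _ ≤ mc E κ F.card ^ 2 * ∏ e, (A e).card := Nat.mul_le_mul (Nat.pow_le_pow_left hTc 2) h1

end energy

end Pool.Agent.Q163.SS
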