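import Mathlib
import Pool.Agent.Q163.SS.Core
import Pool.Agent.TH539.MQPoly

set_option autoImplicit false

/-!
# Sumsets of sets of short sums of S-units
-/

namespace Pool.Agent.Q163.SS

open Finset

section rep

variable {κ : Type} [Fintype κ] [DecidableEq κ]

/-- a representation of `z` with the blocks `B` -/
def Rp (U : Set ℚ) (W : Finset ℚ) (z : ℚ) (B : Finset κ) (lam w : κ → ℚ) : Prop :=
  (∀ b ∈ B, lam b ∈ U ∧ w b ∈ W ∧ w b ≠ 0) ∧ (∀ b, b ∉ B → lam b = 0 ∧ w b = 0) ∧
    z = ∑ b ∈ B, w b * lam b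

variable (κ) in
/-- `z` has a representation with at most `n` blocks -/
def PP (U : Set ℚ) (W : Finset ℚ) (z : ℚ) (n : ℕ) : Prop :=
  ∃ (B : Finset κ) (lam w : κ → ℚ), B.card ≤ n ∧ Rp U W z B lam w

lemma PP.mono {U : Set ℚ} {W W' : Finset ℚ} (h : W ⊆ W') {z : ℚ} {n : ℕ}
    (hp : PP κ U W z n) : PP κ U W' z n := by
  obtain ⟨B, lam, w, h1, h2, h3, h4⟩ := hp
  exact ⟨B, lam, w, h1, fun b hb => ⟨(h2 b hb).1, h (h2 b hb).2.1, (h2 b hb).2.2⟩, h3, h4⟩

lemma merge {U : Set ℚ} (h0 : (0 : ℚ) ∉ U) {W W' F : Finset ℚ} (hW : W ⊆ W')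
    (hmerge : ∀ x ∈ F, ∀ w ∈ W, ∀ w' ∈ W, x * w + w' ∈ W') {z : ℚ} {B : Finset κ}
    {lam w : κ → ℚ} (h : Rp U W z B lam w) {b b' : κ} (hb : b ∈ B) (hb' : b' ∈ B)
    (hne : b ≠ b') (hF : lam b / lam b' ∈ F) : PP κ U W' z (B.card - 1) := by
  classical
  obtain ⟨h1, h2, h3⟩ := h
  have hlb : lam b' ≠ 0 := fun h => h0 (h ▸ (h1 b' hb').1)
  have hb'' : b' ∈ B.erase b := Finset.mem_erase.2 ⟨hne.symm, hb'⟩
  have hsum : z = (lam b / lam b' * w b + w b') * lam b' +
      ∑ x ∈ (B.erase b).erase b', w x * lam x := by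
    rw [h3, ← Finset.add_sum_erase B _ hb, ← Finset.add_sum_erase (B.erase b) _ hb'']
    field_simp
    ring
  by_cases hv : lam b / lam b' * w b + w b' = 0
  · refine ⟨(B.erase b).erase b', fun x => if x ∈ (B.erase b).erase b' then lam x else 0,
      fun x => if x ∈ (B.erase b).erase b' then w x else 0, ?_, ?_, ?_, ?_⟩
    · rw [Finset.card_erase_of_mem hb'', Finset.card_erase_of_mem hb]
      omega
    · intro x hx
      have hxB : x ∈ B := Finset.mem_of_mem_erase (Finset.mem_of_mem_erase hx)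
      simp only [if_pos hx]
      exact ⟨(h1 x hxB).1, hW (h1 x hxB).2.1, (h1 x hxB).2.2⟩
    · intro x hx
      simp only [if_neg hx, and_self]
    · rw [hsum, hv, zero_mul, zero_add]
      refine Finset.sum_congr rfl fun x hx => ?_
      simp only [if_pos hx]
  · refine ⟨B.erase b, fun x => if x ∈ B.erase b then lam x else 0,
      fun x => if x = b' then lam b / lam b' * w b + w b' else
        if x ∈ B.erase b then w x else 0, ?_, ?_, ?_, ?_⟩
    · rw [Finset.card_erase_of_mem hb]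
    · intro x hx
      have hxB : x ∈ B := Finset.mem_of_mem_erase hx
      simp only [if_pos hx]
      refine ⟨(h1 x hxB).1, ?_⟩
      by_cases hxb : x = b'
      · simp only [if_pos hxb]
        exact ⟨hmerge _ hF _ (h1 b hb).2.1 _ (h1 b' hb').2.1, hv⟩
      · simp only [if_neg hxb]
        exact ⟨hW (h1 x hxB).2.1, (h1 x hxB).2.2⟩
    · intro x hx
      have hxb : x ≠ b' := fun h => hx (h ▸ hb'')
      simp only [if_neg hx, if_neg hxb, and_self]
    · rw [hsum, ← Finset.add_sum_erase (B.erase b) _ hb'']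
      simp only [if_pos hb'', if_true]
      congr 1
      refine Finset.sum_congr rfl fun x hx => ?_
      have hx1 := Finset.mem_erase.1 hx
      simp only [if_neg hx1.1, if_pos hx1.2]

variable (κ) in
/-- the least number of blocks -/
noncomputable def lev (U : Set ℚ) (W : Finset ℚ) (z : ℚ) : ℕ := sInf {n | PP κ U W z n}

lemma lev_spec {U : Set ℚ} {W : Finset ℚ} {z : ℚ} {n : ℕ} (h : PP κ U W z n) :
    PP κ U W z (lev κ U W z) := Nat.sInf_mem (s := {n | PP κ U W z n}) ⟨n, h⟩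

lemma lev_le {U : Set ℚ} {W : Finset ℚ} {z : ℚ} {n : ℕ} (h : PP κ U W z n) :
    lev κ U W z ≤ n := Nat.sInf_le h

lemma separated {U : Set ℚ} (h0 : (0 : ℚ) ∉ U) {W W' F : Finset ℚ} (hW : W ⊆ W')
    (hmerge : ∀ x ∈ F, ∀ w ∈ W, ∀ w' ∈ W, x * w + w' ∈ W') {z : ℚ} {n : ℕ}
    (hp : PP κ U W z n) (hl : lev κ U W' z = lev κ U W z) :
    ∃ (B : Finset κ) (lam w : κ → ℚ), Rp U W z B lam w ∧
      ∀ b ∈ B, ∀ b' ∈ B, b ≠ b' → lam b / lam b' ∉ F := by
  obtain ⟨B, lam, w, h1, h2⟩ := lev_spec hp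
  refine ⟨B, lam, w, h2, fun b hb b' hb' hne hF => ?_⟩
  have h3 := lev_le (merge h0 hW hmerge h2 hb hb' hne hF)
  have h4 := Finset.card_pos.2 ⟨b, hb⟩
  omega

end rep

lemma pigeon (g : ℕ → ℕ) (hg : ∀ i, g (i + 1) ≤ g i) (L : ℕ) (h : g 0 < L) :
    ∃ i < L, g (i + 1) = g i := by
  by_contra hcon
  push Not at hcon
  have h1 : ∀ i, i ≤ L → g i + i ≤ g 0 := by
    intro i
    induction i with
    | zero => intro _; omega
    | succ i ih =>
      intro hi
      have h2 := ih (by omega)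
      have h3 := hg i
      have h4 := hcon i (by omega)
      omega
  have := h1 L le_rfl
  omega

section sumset

variable {κ J : Type} [Fintype κ] [DecidableEq κ] [Fintype J] [DecidableEq J]

/-- from the number of coincidences to the size of the sumset -/
lemma cs (A : J → Finset ℚ) (M : ℕ) (hA : ∀ j, (A j).Nonempty)
    (h : ((Fintype.piFinset fun e : Bool × J => A e.2).filter
      fun z => ∑ e, (if e.1 = true then (1 : ℚ) else -1) * z e = 0).card ≤
        M * ∏ j, (A j).card) :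
    ∏ j, (A j).card ≤ M * ((Fintype.piFinset A).image fun f => ∑ j, f j).card := by
  classical
  set S := (Fintype.piFinset A).image fun f => ∑ j, f j with hS
  let r : ℚ → Finset (J → ℚ) := fun s => (Fintype.piFinset A).filter fun f => ∑ j, f j = s
  have h1 : ∏ j, (A j).card = ∑ s ∈ S, (r s).card := by
    rw [← Fintype.card_piFinset]
    exact Finset.card_eq_sum_card_image (fun f : J → ℚ => ∑ j, f j) (Fintype.piFinset A)
  have h2 : (∑ s ∈ S, (r s).card) ^ 2 ≤ S.card * ∑ s ∈ S, (r s).card ^ 2 :=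
    sq_sum_le_card_mul_sum_sq
  have h3 : ∑ s ∈ S, (r s).card ^ 2 ≤ M * ∏ j, (A j).card := by
    refine le_trans ?_ h
    have h4 : ∑ s ∈ S, (r s).card ^ 2 = (S.sigma fun s => r s ×ˢ r s).card := by
      rw [Finset.card_sigma]
      refine Finset.sum_congr rfl fun s _ => ?_
      rw [Finset.card_product, sq]
    rw [h4]
    refine Finset.card_le_card_of_injOn
      (fun x => fun e : Bool × J => if e.1 = true then x.2.1 e.2 else x.2.2 e.2) ?_ ?_
    · rintro ⟨s, f, g⟩ hx
      simp only [Finset.coe_sigma, Set.mem_sigma_iff, Finset.mem_coe, Finset.mem_product,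
        r, Finset.mem_filter, Fintype.mem_piFinset] at hx
      obtain ⟨_, ⟨hf, hf'⟩, hg, hg'⟩ := hx
      simp only [Finset.mem_coe, Finset.mem_filter, Fintype.mem_piFinset]
      refine ⟨fun e => ?_, ?_⟩
      · split_ifs
        · exact hf _
        · exact hg _
      · rw [Fintype.sum_prod_type, Fintype.sum_bool]
        simp only [if_true, Bool.false_eq_true, if_false, one_mul, neg_mul,
          Finset.sum_neg_distrib]
        rw [hf', hg', add_neg_cancel]
    · rintro ⟨s, f, g⟩ hx ⟨s', f', g'⟩ hx' hxx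
      simp only [Finset.coe_sigma, Set.mem_sigma_iff, Finset.mem_coe, Finset.mem_product,
        r, Finset.mem_filter, Fintype.mem_piFinset] at hx hx'
      have hf : f = f' := by
        funext j
        have := congrFun hxx (true, j)
        simpa using this
      have hg : g = g' := by
        funext j
        have := congrFun hxx (false, j)
        simpa using this
      have hs : s = s' := by
        rw [← hx.2.1.2, ← hx'.2.1.2, hf]
      subst hs hf hg
      rfl
  have hpos : 0 < ∏ j, (A j).card := Finset.prod_pos fun j _ => Finset.card_pos.2 (hA j)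
  rw [← h1] at h2
  have h5 : (∏ j, (A j).card) * (∏ j, (A j).card) ≤
      (M * S.card) * ∏ j, (A j).card := by
    calc (∏ j, (A j).card) * (∏ j, (A j).card) = (∏ j, (A j).card) ^ 2 := by ring
      _ ≤ S.card * ∑ s ∈ S, (r s).card ^ 2 := h2
      _ ≤ S.card * (M * ∏ j, (A j).card) := Nat.mul_le_mul_left _ h3
      _ = _ := by ring
  exact Nat.le_of_mul_le_mul_right h5 hpos

/-- number of levels -/
def nl (κ J : Type) [Fintype κ] [Fintype J] : ℕ := Fintype.card J * Fintype.card κ + 1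

/-- the loss -/
def cc (κ J : Type) [Fintype κ] [Fintype J] (W F : ℕ → Finset ℚ) : ℕ :=
  ((Fintype.card κ + 1) ^ (nl κ J + 1) *
    (2 ^ Fintype.card κ * ((W (nl κ J)).card + 1) ^ Fintype.card κ)) ^ Fintype.card J *
    mc (Bool × J) κ (∑ i ∈ Finset.range (nl κ J), (F i).card)

lemma mc_mono (E κ : Type) [Fintype E] [Fintype κ] {f g : ℕ} (h : f ≤ g) :
    mc E κ f ≤ mc E κ g :=
  Nat.mul_le_mul_left _ (Nat.pow_le_pow_left (by omega) _)

theorem sumset [Nonempty J] (U : Set ℚ) (h0 : (0 : ℚ) ∉ U) (W F : ℕ → Finset ℚ)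
    (hW : ∀ i, W i ⊆ W (i + 1))
    (hmerge : ∀ i, ∀ x ∈ F i, ∀ w ∈ W i, ∀ w' ∈ W i, x * w + w' ∈ W (i + 1))
    (hrat : ∀ i, ∀ (A : Finset ((Bool × J) × κ)) (c u : (Bool × J) × κ → ℚ),
      (∀ j ∈ A, c j ≠ 0 ∧ (c j ∈ W i ∨ - c j ∈ W i)) → (∀ j ∈ A, u j ∈ U) →
      ∑ j ∈ A, c j * u j = 0 → ∀ j ∈ A, ∃ j' ∈ A, j' ≠ j ∧ u j / u j' ∈ F i)
    (A : J → Finset ℚ) (hA : ∀ j, (A j).Nonempty)
    (hrep : ∀ j, ∀ z ∈ A j, PP κ U (W 0) z (Fintype.card κ)) :
    ∏ j, (A j).card ≤ cc κ J W F * ((Fintype.piFinset A).image fun f => ∑ j, f j).card := by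
  classical
  have hWm : ∀ {i j : ℕ}, i ≤ j → W i ⊆ W j := by
    intro i j h
    induction j, h using Nat.le_induction with
    | base => exact Finset.Subset.refl _
    | succ j _ ih => exact ih.trans (hW j)
  set K := Fintype.card κ with hK
  set L := nl κ J with hL
  have hPP : ∀ j, ∀ z ∈ A j, ∀ i, PP κ U (W i) z K := fun j z hz i =>
    (hrep j z hz).mono (hWm (Nat.zero_le i))
  -- popular profiles
  let T1 : Finset (Fin (L + 1) → ℕ) := Fintype.piFinset fun _ => Finset.range (K + 1)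
  have hT1 : T1.card = (K + 1) ^ (L + 1) := by
    simp only [T1]
    rw [Fintype.card_piFinset, Finset.prod_const, Finset.card_univ, Fintype.card_fin,
      Finset.card_range]
  have hpop1 := fun j => popular (A j) (hA j)
    (fun z => fun i : Fin (L + 1) => lev κ U (W i) z) T1 (fun z hz =>
      Fintype.mem_piFinset.2 fun i => Finset.mem_range.2
        (Nat.lt_succ_of_le (lev_le (hPP j z hz i))))
  choose f _ hA1 hc1 using hpop1
  set A1 : J → Finset ℚ := fun j => (A j).filter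
    fun z => (fun i : Fin (L + 1) => lev κ U (W i) z) = f j with hA1def
  have hA1m : ∀ j, ∀ z ∈ A1 j, z ∈ A j ∧ ∀ i, i ≤ L → ∀ z' ∈ A1 j,
      lev κ U (W i) z = lev κ U (W i) z' := by
    intro j z hz
    have h1 := Finset.mem_filter.1 hz
    refine ⟨h1.1, fun i hi z' hz' => ?_⟩
    have h2 := Finset.mem_filter.1 hz'
    have h3 := congrFun (h1.2.trans h2.2.symm) ⟨i, by omega⟩
    exact h3
  choose y hy using fun j => hA1 j
  have hanti : ∀ j i, lev κ U (W (i + 1)) (y j) ≤ lev κ U (W i) (y j) := by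
    intro j i
    exact lev_le ((lev_spec (hPP j (y j) (hA1m j _ (hy j)).1 i)).mono (hW i))
  obtain ⟨i, hiL, hi⟩ := pigeon (fun i => ∑ j, lev κ U (W i) (y j))
    (fun i => Finset.sum_le_sum fun j _ => hanti j i) L (by
      have h1 : ∑ j, lev κ U (W 0) (y j) ≤ ∑ _j : J, K :=
        Finset.sum_le_sum fun j _ => lev_le (hPP j (y j) (hA1m j _ (hy j)).1 0)
      rw [Finset.sum_const, Finset.card_univ, smul_eq_mul] at h1
      show ∑ j, lev κ U (W 0) (y j) < L
      have h2 : L = Fintype.card J * K + 1 := rfl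
      omega)
  have hieq : ∀ j, lev κ U (W (i + 1)) (y j) = lev κ U (W i) (y j) := by
    have h1 := (Finset.sum_eq_sum_iff_of_le (fun j _ => hanti j i)).1 hi
    exact fun j => h1 j (Finset.mem_univ _)
  have hsep : ∀ j, ∀ z : ℚ, ∃ (q : Finset κ × (κ → ℚ)) (lam : κ → ℚ), z ∈ A1 j →
      Rp U (W i) z q.1 lam q.2 ∧
        ∀ b ∈ q.1, ∀ b' ∈ q.1, b ≠ b' → lam b / lam b' ∉ F i := by
    intro j z
    by_cases hz : z ∈ A1 j
    · have h1 := hA1m j z hz
      obtain ⟨B, lam, w, h2, h3⟩ := separated h0 (hW i) (hmerge i) (hPP j z h1.1 i) (by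
        rw [h1.2 (i + 1) (by omega) _ (hy j), h1.2 i (by omega) _ (hy j), hieq])
      exact ⟨(B, w), lam, fun _ => ⟨h2, h3⟩⟩
    · exact ⟨(∅, 0), 0, fun h => absurd h hz⟩
  choose q lam hq using hsep
  let T2 : Finset (Finset κ × (κ → ℚ)) :=
    Finset.univ ×ˢ Fintype.piFinset fun _ => insert 0 (W L)
  have hT2 : T2.card ≤ 2 ^ K * ((W L).card + 1) ^ K := by
    simp only [T2]
    rw [Finset.card_product, Fintype.card_piFinset, Finset.prod_const, Finset.card_univ,
      Finset.card_univ, Fintype.card_finset]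
    exact Nat.mul_le_mul_left _ (Nat.pow_le_pow_left (Finset.card_insert_le _ _) _)
  have hpop2 := fun j => popular (A1 j) (hA1 j) (q j) T2 (fun z hz => by
    obtain ⟨⟨h1, h2, _⟩, _⟩ := hq j z hz
    refine Finset.mem_product.2 ⟨Finset.mem_univ _, Fintype.mem_piFinset.2 fun b => ?_⟩
    by_cases hb : b ∈ (q j z).1
    · exact Finset.mem_insert_of_mem (hWm hiL.le (h1 b hb).2.1)
    · rw [(h2 b hb).2]
      exact Finset.mem_insert_self _ _)
  choose p _ hA2 hc2 using hpop2
  set A2 : J → Finset ℚ := fun j => (A1 j).filter fun z => q j z = p j with hA2def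
  have hA2m : ∀ j, ∀ z ∈ A2 j, z ∈ A j ∧ Rp U (W i) z (p j).1 (lam j z) (p j).2 ∧
        ∀ b ∈ (p j).1, ∀ b' ∈ (p j).1, b ≠ b' → lam j z b / lam j z b' ∉ F i := by
    intro j z hz
    have h1 := Finset.mem_filter.1 hz
    have h2 := hq j z h1.1
    rw [h1.2] at h2
    exact ⟨(hA1m j z h1.1).1, h2⟩
  have hen := energy (E := Bool × J) (κ := κ) U h0 (W i) (F i) (by
      rw [Fintype.card_prod, Fintype.card_bool]
      have := Fintype.card_pos (α := J)
      omega) (hrat i) (fun e => A2 e.2) (fun e => if e.1 = true then (1 : ℚ) else -1)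
    (fun e => by
      by_cases h : e.1 = true
      · left; simp only [if_pos h]
      · right; simp only [if_neg h])
    (fun e => (p e.2).1) (fun e => (p e.2).2) (fun e => lam e.2)
    (fun e b hb => by
      obtain ⟨z, hz⟩ := hA2 e.2
      exact ((hA2m e.2 z hz).2.1.1 b hb).2)
    (fun e z hz b hb => ((hA2m e.2 z hz).2.1.1 b hb).1)
    (fun e z hz b hb => ((hA2m e.2 z hz).2.1.2.1 b hb).1)
    (fun e z hz => (hA2m e.2 z hz).2.2)
    (fun e z hz => (hA2m e.2 z hz).2.1.2.2)
  have hprod : ∏ e : Bool × J, (A2 e.2).card = (∏ j, (A2 j).card) ^ 2 := by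
    rw [Fintype.prod_prod_type, Fintype.prod_bool, sq]
  rw [hprod, ← mul_pow] at hen
  have hen' := le_of_pow_le_pow_left₀ (two_ne_zero) (Nat.zero_le _) hen
  have h6 := cs A2 _ hA2 hen'
  have h7 : ∀ j, (A j).card ≤
      ((K + 1) ^ (L + 1) * (2 ^ K * ((W L).card + 1) ^ K)) * (A2 j).card := by
    intro j
    calc (A j).card ≤ T1.card * (A1 j).card := hc1 j
      _ ≤ T1.card * (T2.card * (A2 j).card) := Nat.mul_le_mul_left _ (hc2 j)
      _ = (T1.card * T2.card) * (A2 j).card := by ring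
      _ ≤ _ := by
          rw [hT1]
          exact Nat.mul_le_mul_right _ (Nat.mul_le_mul_left _ hT2)
  have hFi : (F i).card ≤ ∑ i ∈ Finset.range L, (F i).card :=
    Finset.single_le_sum (f := fun i => (F i).card) (fun _ _ => Nat.zero_le _)
      (Finset.mem_range.2 hiL)
  have h8 : ((Fintype.piFinset A2).image fun f => ∑ j, f j).card ≤
      ((Fintype.piFinset A).image fun f => ∑ j, f j).card :=
    Finset.card_le_card (Finset.image_subset_image (Fintype.piFinset_subset _ _ fun j z hz =>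
      (hA2m j z hz).1))
  calc ∏ j, (A j).card ≤ ∏ j, (((K + 1) ^ (L + 1) * (2 ^ K * ((W L).card + 1) ^ K)) *
        (A2 j).card) := Finset.prod_le_prod' fun j _ => h7 j
    _ = ((K + 1) ^ (L + 1) * (2 ^ K * ((W L).card + 1) ^ K)) ^ Fintype.card J *
        ∏ j, (A2 j).card := by
        rw [Finset.prod_mul_distrib, Finset.prod_const, Finset.card_univ]
    _ ≤ ((K + 1) ^ (L + 1) * (2 ^ K * ((W L).card + 1) ^ K)) ^ Fintype.card J *
        (mc (Bool × J) κ (F i).card *
          ((Fintype.piFinset A2).image fun f => ∑ j, f j).card) := Nat.mul_le_mul_left _ h6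
    _ ≤ ((K + 1) ^ (L + 1) * (2 ^ K * ((W L).card + 1) ^ K)) ^ Fintype.card J *
        (mc (Bool × J) κ (∑ i ∈ Finset.range L, (F i).card) *
          ((Fintype.piFinset A).image fun f => ∑ j, f j).card) :=
        Nat.mul_le_mul_left _ (Nat.mul_le_mul (mc_mono _ _ hFi) h8)
    _ = _ := by
        rw [cc, mul_assoc]

open Pool.Agent.TH539.MQ Pool.Agent.TH551.SU

lemma cc_pb (C : ℕ) : PB (fun h => cc κ J (fun i => box (Nn 1 C h i))
    (fun i => box (R 1 C (Nn 1 C h i)))) := by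
  have h1 : PB (fun h => (box (Nn 1 C h (nl κ J))).card) := box_pb (Nn_pb 1 C _)
  have h2 : PB (fun h => ∑ i ∈ Finset.range (nl κ J), (box (R 1 C (Nn 1 C h i))).card) :=
    PB.sum _ fun i => box_pb (R_pb 1 C i)
  unfold cc mc
  exact (((PB.const _).mul ((PB.const _).mul ((h1.add (PB.const 1)).pow _))).pow _).mul
    ((PB.const _).mul ((h2.add (PB.const 1)).pow _))

/-- sumsets of sets of short sums of S-units with coefficients of height `h` -/
theorem sums {s : ℕ} (b : Fin s → ℕ) (hb : ∀ v, (b v).Prime) (hbi : Function.Injective b)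
    (κ J : Type) [Fintype κ] [DecidableEq κ] [Fintype J] [DecidableEq J] [Nonempty J] :
    ∃ C : ℕ, ∀ h : ℕ, 1 ≤ h → ∀ A : J → Finset ℚ, (∀ j, (A j).Nonempty) →
      (∀ j, ∀ z ∈ A j, ∃ c u : κ → ℚ, (∀ i, c i ∈ box h ∧ IsSU b (u i)) ∧
        z = ∑ i, c i * u i) →
      ∏ j, (A j).card ≤
        (C * h ^ C) * ((Fintype.piFinset A).image fun f => ∑ j, f j).card := by
  classical
  obtain ⟨C0, hC0⟩ := ratio b hb hbi ((Bool × J) × κ)
  obtain ⟨E, hE⟩ := cc_pb (κ := κ) (J := J) C0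
  refine ⟨E, fun h hh A hA hrep => ?_⟩
  refine (sumset (κ := κ) {x | IsSU b x} (fun h => isSU_ne b hb h rfl)
    (fun i => box (Nn 1 C0 h i)) (fun i => box (R 1 C0 (Nn 1 C0 h i))) ?_ ?_ ?_ A hA ?_).trans
    (Nat.mul_le_mul_right _ (hE h hh))
  · intro i
    exact box_mono (by rw [Nn]; omega)
  · intro i x hx w hw w' hw'
    have h1 : 2 * ((R 1 C0 (Nn 1 C0 h i) * Nn 1 C0 h i) * Nn 1 C0 h i) ≤ Nn 1 C0 h (i + 1) := by
      rw [Nn]
      omega
    exact box_mono h1 (box_add (box_mul hx hw) hw')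
  · intro i A' c u hc hu hsum
    have hN : 1 ≤ Nn 1 C0 h i := hh.trans (Nn_ge 1 C0 h i)
    have hG : Nn 1 C0 h i ≤ G 1 (Nn 1 C0 h i) := by
      rw [G, one_mul]
      nlinarith
    refine hC0 (G 1 (Nn 1 C0 h i)) (hN.trans hG) A' c u (fun j hj => ⟨(hc j hj).1, ?_⟩) hu hsum
    rcases (hc j hj).2 with h3 | h3
    · exact box_mono hG h3
    · have h4 := box_mono hG (box_neg h3)
      rwa [neg_neg] at h4
  · intro j z hz
    obtain ⟨c, u, h1, h2⟩ := hrep j z hz
    refine ⟨Finset.univ.filter fun i => c i ≠ 0, fun i => if c i ≠ 0 then u i else 0, c,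
      Finset.card_le_univ _, ?_, ?_, ?_⟩
    · intro i hi
      have hi' := (Finset.mem_filter.1 hi).2
      simp only [if_pos hi']
      exact ⟨(h1 i).2, (h1 i).1, hi'⟩
    · intro i hi
      have hi' : c i = 0 := by
        by_contra hne
        exact hi (Finset.mem_filter.2 ⟨Finset.mem_univ _, hne⟩)
      simp only [hi', ne_eq, not_true_eq_false, if_false, and_self]
    · rw [h2, Finset.sum_filter]
      refine Finset.sum_congr rfl fun i _ => ?_
      by_cases hi : c i = 0
      · simp [hi]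
      · simp [hi]

end sumset

end Pool.Agent.Q163.SS
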